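import Pool.Agent.helper82.SW.SpecW

/-!
# sp: stage W, module SDB: distances
-/

namespace Pool.Agent.helper82.SW

open MeasureTheory Filter Topology TopologicalSpace
open scoped BoundedContinuousFunction

theorem SDB_sqrt : (1 : ℝ) ≤ √3 ∧ √3 ≤ 2 := by
  refine ⟨Real.one_le_sqrt.mpr (by norm_num), ?_⟩
  rw [show (2 : ℝ) = √4 by rw [show (4 : ℝ) = 2 ^ 2 by norm_num, Real.sqrt_sq (by norm_num)]]
  exact Real.sqrt_le_sqrt (by norm_num)

theorem SDB : SDB_stmt := by
  obtain ⟨h1, h2⟩ := SDB_sqrt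
  refine ⟨fun u v => ?_, fun x => ?_⟩
  · set A : ℤ := (sh u).1 - (sh v).1 with hA
    set B : ℤ := (sh u).2 - (sh v).2 with hB
    have hre : (SC.ps u - SC.ps v).re = (A : ℝ) / 2 := by
      simp only [SC.ps, Complex.sub_re, hA, sh]; push_cast; ring
    have him : (SC.ps u - SC.ps v).im = √3 / 2 * (B : ℝ) := by
      simp only [SC.ps, Complex.sub_im, hB, sh]; push_cast; ring
    have hsd : (DP.sd (sh u) (sh v) : ℝ) = max |(A : ℝ)| |(B : ℝ)| := by
      unfold DP.sd
      rw [Nat.cast_max, Nat.cast_natAbs, Nat.cast_natAbs, Int.cast_abs, Int.cast_abs]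
    have e1 := Complex.abs_re_le_norm (SC.ps u - SC.ps v)
    have e2 := Complex.abs_im_le_norm (SC.ps u - SC.ps v)
    have e3 := Complex.norm_le_abs_re_add_abs_im (SC.ps u - SC.ps v)
    rw [hre, abs_div, abs_of_pos (two_pos : (0 : ℝ) < 2)] at e1 e3
    rw [him, abs_mul, abs_of_nonneg (by positivity : (0 : ℝ) ≤ √3 / 2)] at e2 e3
    have hA0 := abs_nonneg (A : ℝ)
    have hB0 := abs_nonneg (B : ℝ)
    rw [hsd]
    refine ⟨max_le (by linarith) ?_, ?_⟩
    · have : 1 / 2 * |(B : ℝ)| ≤ √3 / 2 * |(B : ℝ)| :=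
        mul_le_mul_of_nonneg_right (by linarith) hB0
      linarith
    · have f1 := le_max_left |(A : ℝ)| |(B : ℝ)|
      have f2 := le_max_right |(A : ℝ)| |(B : ℝ)|
      have f3 : √3 / 2 * |(B : ℝ)| ≤ 1 * |(B : ℝ)| :=
        mul_le_mul_of_nonneg_right (by linarith) hB0
      linarith
  · set b : ℤ := round (2 * x.im / √3) with hb
    set a : ℤ := round (x.re - b / 2) with ha
    refine ⟨(a, b), ?_⟩
    have e3 := Complex.norm_le_abs_re_add_abs_im (SC.ps (a, b) - x)
    have hs : (0 : ℝ) < √3 := by linarith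
    have f1 : |2 * x.im / √3 - b| ≤ 1 / 2 := abs_sub_round _
    have f2 : |x.re - b / 2 - a| ≤ 1 / 2 := abs_sub_round _
    have hre : (SC.ps (a, b) - x).re = -(x.re - b / 2 - a) := by
      simp only [SC.ps, Complex.sub_re]; ring
    have him : (SC.ps (a, b) - x).im = -(√3 / 2 * (2 * x.im / √3 - b)) := by
      simp only [SC.ps, Complex.sub_im]
      field_simp
      ring
    rw [hre, him, abs_neg, abs_neg, abs_mul, abs_of_nonneg (by positivity : (0 : ℝ) ≤ √3 / 2)] at e3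
    have f3 : √3 / 2 * |2 * x.im / √3 - b| ≤ 1 * (1 / 2) :=
      mul_le_mul (by linarith) f1 (abs_nonneg _) zero_le_one
    linarith

end Pool.Agent.helper82.SW
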